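import Pool.Agent.Work.MP_7d5fe8_co.Additive

/-! The chromatic number of `Q_n^d` above the middle dimension. -/

namespace Pool.Agent.Results.MP_7d5fe8_co.AboveMiddle

open MP7d5fe8

/-- Put `m = ⌊D / (2D - N)⌋`, where `(N, D)` is `(n, d + 1)` for odd `d` and `(n + 1, d + 2)` for
even `d`.  For every `ε > 0` the chromatic number of `Q_n^d` equals `⌈2^n / (2m)⌉` up to a bounded
additive error for all `n` and `d` with `(1/2 + ε) n ≤ d < n`; for every `n`, it is exactly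
`⌈2^n / (2m)⌉` for all but a bounded number of these `d`; and it is exactly `⌈2^n / (2m)⌉` as soon
as `d < n < 2 (d + 1)` and `(2m - 1) (d + 1 + 4^(m+1)) ≤ m n`. -/
theorem result :
    (∀ ε : ℝ, 0 < ε → ∃ C : ℕ, ∀ n d : ℕ, d < n → (1 / 2 + ε) * n ≤ d →
      ((⌈(2 ^ n : ℚ) / (2 * halfSize n d)⌉₊ : ℕ) : ℕ∞) ≤ (QPow n d).chromaticNumber ∧
      (QPow n d).chromaticNumber ≤ ((⌈(2 ^ n : ℚ) / (2 * halfSize n d)⌉₊ + C : ℕ) : ℕ∞)) ∧
    (∀ ε : ℝ, 0 < ε → ∃ C : ℕ, ∀ n : ℕ,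
      {d : ℕ | d < n ∧ (1 / 2 + ε) * n ≤ d ∧
        (QPow n d).chromaticNumber ≠ (⌈(2 ^ n : ℚ) / (2 * halfSize n d)⌉₊ : ℕ)}.encard ≤ C) ∧
    (∀ n d : ℕ, d < n → n < 2 * (d + 1) →
      (2 * halfSize n d - 1) * (d + 1 + 4 ^ (halfSize n d + 1)) ≤ halfSize n d * n →
      (QPow n d).chromaticNumber = (⌈(2 ^ n : ℚ) / (2 * halfSize n d)⌉₊ : ℕ)) :=
  ⟨additive, few_exceptions, fun _ _ h1 h2 h3 => exact_halfSize h1 h2 h3⟩

end Pool.Agent.Results.MP_7d5fe8_co.AboveMiddle
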