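import Pool.Agent.Work.MP_7d5fe8_co.T.Nu

/-! The chromatic number of `Q_n^d` up to a constant factor for almost all `d`. -/

namespace Pool.Agent.Results.MP_7d5fe8_co.AlmostAll

open MP7d5fe8 MP7d5fe8.T Finset

open Classical in
/-- `chi n d` is the chromatic number of `Q_n^d` and `codeSize n D` is the largest size `A(n, D)` of
a binary code of length `n` and minimum distance at least `D`.  One has `2^n / A(n, d+1) ≤ χ(Q_n^d)`
for all `n` and `d`, and this is sharp up to a constant factor for almost all `d`: if `ν` is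
nondecreasing on `[1, N]` with values at most `N`, then `χ(Q_n^d) ≤ K * 2^n / A(n, d+1)`, where
`n = ν d`, for all but at most `20 N / min (K, log (N + 1))` of the integers `1 ≤ d ≤ N`. -/
theorem result :
    (∀ n d : ℕ, (QPow n d).chromaticNumber = chi n d ∧ (2 : ℝ) ^ n / codeSize n (d + 1) ≤ chi n d) ∧
    (∀ (N : ℕ) (ν : ℕ → ℕ) (K : ℝ), 1 ≤ N → (∀ d e, 1 ≤ d → d ≤ e → e ≤ N → ν d ≤ ν e) →
      (∀ d, 1 ≤ d → d ≤ N → ν d ≤ N) → 1 ≤ K →
      (((Icc 1 N).filter fun d =>
          K * 2 ^ ν d / codeSize (ν d) (d + 1) < (chi (ν d) d : ℝ)).card : ℝ) ≤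
        20 * N / min K (Real.log (N + 1))) :=
  ⟨fun n d => ⟨chi_spec n d, lower n d⟩, fun _ _ _ h1 h2 h3 h4 => nu h1 h2 h3 h4⟩

end Pool.Agent.Results.MP_7d5fe8_co.AlmostAll
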