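import Pool.Agent.Work.MP_7d5fe8_co.T.Around

/-! An explicit asymptotic formula for the chromatic number of `Q_n^d` around the middle. -/

namespace Pool.Agent.Results.MP_7d5fe8_co.AroundMiddle

open MP7d5fe8 MP7d5fe8.T

/-- Put `M = ⌊D / (2D - N)⌋`, where `(N, D)` is `(n, d + 1)` for odd `d` and `(n + 1, d + 2)` for
even `d`, if `n < 2 (d + 1)`, and `M = n` otherwise.  For every `ε > 0` there is a `C` such that the
chromatic number of `Q_n^d` is between `(1 - ε) 2^n / (2M)` and `(1 + ε) 2^n / (2M)` for all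
`1 ≤ d < n` with `n < 2d` and `(2d - n)^3 ≥ C n log n`, and also for those with
`2d + w + 10 ≤ n` and `C (n - 2d)^3 ≤ n`, where `w` is such that there is a Hadamard matrix of an
order `h` with `|n - h| ≤ w`. -/
theorem result :
    (∀ n d : ℕ, (QPow n d).chromaticNumber = chi n d) ∧
    (∀ ε : ℝ, 0 < ε → ∃ C : ℝ, ∀ n d : ℕ, 1 ≤ d → d < n →
      ((n < 2 * d ∧ C * n * Real.log n ≤ (2 * d - n : ℝ) ^ 3) ∨
        (∃ h w : ℕ, Had h ∧ n ≤ h + w ∧ h ≤ n + w ∧ 2 * d + w + 10 ≤ n ∧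
          C * (n - 2 * d : ℝ) ^ 3 ≤ n)) →
      (1 - ε) * (2 ^ n / (2 * half n d)) ≤ chi n d ∧
        (chi n d : ℝ) ≤ (1 + ε) * (2 ^ n / (2 * half n d))) :=
  ⟨chi_spec, fun _ h => around h⟩

end Pool.Agent.Results.MP_7d5fe8_co.AroundMiddle
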