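import Pool.Agent.Work.MP_7d5fe8_co.CritUpper

/-! Exact values where the counting bound fails. -/

namespace Pool.Agent.Results.MP_7d5fe8_co.CriticalLine

open MP7d5fe8

/-- For all `t ≥ 1`, the chromatic number of `Q_{10t}^{6t-1}` is `(2^(10t) + 8) / 6`, one more than
`⌈2^(10t) / 6⌉`, and the one of `Q_{10t-1}^{6t-2}` is `(2^(10t-1) + 4) / 6`, which is
`⌈2^(10t-1) / 6⌉`.  For every odd `m ≥ 3` and `t ≥ 1` such that `m` divides `2^(n-1) + 1`, where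
`n = 2 (2m - 1) t`, the chromatic number of `Q_n^{2mt-1}` is larger than `⌈2^n / (2m)⌉`. -/
theorem result :
    (∀ t : ℕ, 1 ≤ t →
      (QPow (10 * t) (6 * t - 1)).chromaticNumber = ((2 ^ (10 * t) + 8) / 6 : ℕ) ∧
      (QPow (10 * t - 1) (6 * t - 2)).chromaticNumber = ((2 ^ (10 * t - 1) + 4) / 6 : ℕ)) ∧
    (∀ m t : ℕ, Odd m → 3 ≤ m → 1 ≤ t → m ∣ 2 ^ (2 * (2 * m - 1) * t - 1) + 1 →
      ((⌈(2 ^ (2 * (2 * m - 1) * t) : ℚ) / (2 * m)⌉₊ : ℕ) : ℕ∞)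
        < (QPow (2 * (2 * m - 1) * t) (2 * m * t - 1)).chromaticNumber) :=
  ⟨fun _ ht => critical ht, fun _ _ hm hm3 ht hmod => critical_gap hm hm3 ht hmod⟩

end Pool.Agent.Results.MP_7d5fe8_co.CriticalLine
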